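import Pool.Agent.Helper46.KSZ.St
import Pool.Agent.Helper30.QRH.BadCells

/-! KSZ-E11: the line integral is small outside of few cells. -/

set_option autoImplicit false
open Filter Topology MeasureTheory

namespace Pool.Agent.Helper8.KSZ.LF

open Pool.Agent.Helper10.QRH Pool.Agent.Helper69.QRH Pool.Agent.Helper46.KSZ
open Pool.Agent.Helper79.QRH (KK_cont)

lemma line_re (c t : ℝ) : ((c : ℂ) + t * Complex.I).re = c := by simp
lemma line_im (c t : ℝ) : ((c : ℂ) + t * Complex.I).im = t := by simp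

/-- the density on the line -/
noncomputable def gg (p : ℕ) (lam T : ℝ) (Z : ℂ → ℂ) : ℝ → ℂ :=
  (Set.Ioc (-T) T).indicator (fun t => KK lam ((0.605 : ℝ) + t * Complex.I) ^ p *
    (-logDeriv Z ((0.605 : ℝ) + t * Complex.I)))

lemma gg_meas {p : ℕ} {lam T : ℝ} (hl : 0 < lam) {Z : ℂ → ℂ} (hZ : Differentiable ℂ Z) :
    Measurable (gg p lam T Z) := by
  apply Measurable.indicator _ measurableSet_Ioc
  have hi : Continuous (fun t : ℝ => (((0.605 : ℝ) : ℂ) + t * Complex.I)) := by fun_prop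
  have h1 : Measurable (fun t : ℝ => KK lam ((0.605 : ℝ) + t * Complex.I)) :=
    ((KK_cont hl).comp hi).measurable
  have h2 : Measurable (fun t : ℝ => logDeriv Z ((0.605 : ℝ) + t * Complex.I)) := by
    have h3 : Measurable (fun t : ℝ => deriv Z ((0.605 : ℝ) + t * Complex.I)) := by
      have : Differentiable ℂ (deriv Z) := fun z => hZ.deriv z
      exact (this.continuous.comp hi).measurable
    have h4 : Measurable (fun t : ℝ => Z ((0.605 : ℝ) + t * Complex.I)) :=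
      (hZ.continuous.comp hi).measurable
    exact h3.div h4
  exact (h1.pow_const p).mul h2.neg

lemma line_eq {p : ℕ} {lam T : ℝ} (hT : 0 ≤ T) (Z : ℂ → ℂ) (u : ℝ) :
    line p lam T Z u = (1 / (2 * Real.pi)) * (Complex.exp ((0.605 : ℝ) * u) *
      ∫ t : ℝ, gg p lam T Z t * Complex.exp (t * u * Complex.I)) := by
  unfold line
  congr 1
  rw [intervalIntegral.integral_of_le (by linarith), ← integral_indicator measurableSet_Ioc,
    ← integral_const_mul]
  congr 1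
  funext t
  unfold gg
  by_cases ht : t ∈ Set.Ioc (-T) T
  · rw [Set.indicator_of_mem ht, Set.indicator_of_mem ht, add_mul, Complex.exp_add,
      show (t : ℂ) * Complex.I * u = t * u * Complex.I by ring]
    ring
  · rw [Set.indicator_of_notMem ht, Set.indicator_of_notMem ht]
    ring

lemma line_norm {p : ℕ} {lam T : ℝ} (hT : 0 ≤ T) (Z : ℂ → ℂ) (u : ℝ) :
    ‖line p lam T Z u‖ ≤ Real.exp (0.605 * u) *
      ‖∫ t : ℝ, gg p lam T Z t * Complex.exp (t * u * Complex.I)‖ := by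
  rw [line_eq hT, norm_mul, norm_mul, Complex.norm_exp]
  have h1 : ‖(1 / (2 * (Real.pi : ℂ)))‖ ≤ 1 := by
    rw [norm_div, norm_one, norm_mul, Complex.norm_real, Real.norm_of_nonneg Real.pi_pos.le,
      Complex.norm_ofNat, div_le_one (by positivity)]
    linarith [Real.pi_gt_three]
  have h2 : (((0.605 : ℝ) : ℂ) * (u : ℂ)).re = 0.605 * u := by
    rw [← Complex.ofReal_mul, Complex.ofReal_re]
  rw [h2]
  exact mul_le_of_le_one_left (by positivity) h1

lemma gg_bound {p : ℕ} (hp : 1 ≤ p) {lam T CK L : ℝ} {Z : ℂ → ℂ} (hCK : 0 ≤ CK) (hL : 0 ≤ L)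
    (hKK : ∀ s : ℂ, 0 ≤ s.re → s.re ≤ 2 → ‖KK lam s‖ ≤ CK / (1 + (lam * s.im) ^ 2))
    (hG : ∀ s : ℂ, 0.605 ≤ s.re → s.re ≤ 2 → |s.im| ≤ T → ‖logDeriv Z s‖ ≤ L) (t : ℝ) :
    ‖gg p lam T Z t‖ ≤ (2 * (CK ^ p * L)) / (1 + (lam * t) ^ 2) * Real.log (2 + |t|) := by
  have hlog : 1/2 ≤ Real.log (2 + |t|) := by
    have h1 : Real.log 2 ≤ Real.log (2 + |t|) :=
      Real.log_le_log (by norm_num) (by linarith [abs_nonneg t])
    linarith [Real.log_two_gt_d9]
  have hlog0 : 0 ≤ Real.log (2 + |t|) := by linarith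
  unfold gg
  by_cases ht : t ∈ Set.Ioc (-T) T
  · rw [Set.indicator_of_mem ht, norm_mul, norm_pow, norm_neg]
    have h1 := hKK ((0.605 : ℝ) + t * Complex.I) (by rw [line_re]; norm_num)
      (by rw [line_re]; norm_num)
    rw [line_im] at h1
    have h2 := hG ((0.605 : ℝ) + t * Complex.I) (by rw [line_re])
      (by rw [line_re]; norm_num) (by rw [line_im]; exact abs_le.2 ⟨ht.1.le, ht.2⟩)
    have h3 : (1 : ℝ) ≤ 1 + (lam * t) ^ 2 := by nlinarith [sq_nonneg (lam * t)]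
    have h4 : ‖KK lam ((0.605 : ℝ) + t * Complex.I)‖ ^ p ≤ CK ^ p / (1 + (lam * t) ^ 2) := by
      calc ‖KK lam ((0.605 : ℝ) + t * Complex.I)‖ ^ p ≤ (CK / (1 + (lam * t) ^ 2)) ^ p := by
            gcongr
        _ = CK ^ p / (1 + (lam * t) ^ 2) ^ p := by rw [div_pow]
        _ ≤ CK ^ p / (1 + (lam * t) ^ 2) := by
            apply div_le_div_of_nonneg_left (by positivity) (by positivity)
            exact le_self_pow₀ h3 (by omega)
    calc ‖KK lam ((0.605 : ℝ) + t * Complex.I)‖ ^ p * ‖logDeriv Z ((0.605 : ℝ) + t * Complex.I)‖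
        ≤ (CK ^ p / (1 + (lam * t) ^ 2)) * L := by gcongr
      _ = (2 * (CK ^ p * L)) / (1 + (lam * t) ^ 2) * (1/2) := by ring
      _ ≤ _ := by gcongr
  · rw [Set.indicator_of_notMem ht, norm_zero]
    positivity

/-- the choice of `K` -/
lemma exists_K (C d : ℝ) (hd : 0 < d) : ∃ K : ℕ, ∀ k : ℕ, K ≤ k →
    C * (k : ℝ) ^ 3 ≤ (2 : ℝ) ^ (3/2 * d * k) := by
  have hr : 1 < (2 : ℝ) ^ (3/2 * d) := Real.one_lt_rpow (by norm_num) (by positivity)
  have h1 := (tendsto_pow_const_div_const_pow_of_one_lt 3 hr).const_mul C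
  rw [mul_zero] at h1
  have h2 := h1.eventually (gt_mem_nhds (one_pos : (0 : ℝ) < 1))
  obtain ⟨K, hK⟩ := Filter.eventually_atTop.1 h2
  refine ⟨K, fun k hk => ?_⟩
  have h3 := hK k hk
  have h4 : (0 : ℝ) < ((2 : ℝ) ^ (3/2 * d)) ^ k := by positivity
  rw [← mul_div_assoc, div_lt_one h4] at h3
  rw [Real.rpow_mul (by norm_num), Real.rpow_natCast]
  exact h3.le

lemma ee_le (d : ℝ) (hd : 0 < d) (k : ℕ) : ee d k ≤ k := by
  have h1 : (k : ℝ) * (1/2 - d) ≤ k := by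
    have : (0 : ℝ) ≤ k := Nat.cast_nonneg k
    nlinarith
  have h2 := Nat.floor_le_floor h1
  rwa [Nat.floor_natCast] at h2

lemma ee_ge (d : ℝ) (k : ℕ) : (k : ℝ) * (1/2 - d) - 1 ≤ ee d k :=
  (Nat.sub_one_lt_floor _).le

/-- the centre of the cell -/
noncomputable def cc (d : ℝ) (k j : ℕ) : ℝ := ((2 ^ k + j * 2 ^ ee d k : ℕ) : ℝ) + (2 : ℝ) ^ ee d k / 2

lemma uu_eq (d : ℝ) (k j : ℕ) : uu d k j = Real.log (cc d k j) := rfl

lemma cc_eq (d : ℝ) (k j : ℕ) : cc d k j = 2 ^ k + j * 2 ^ ee d k + (2 : ℝ) ^ ee d k / 2 := by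
  unfold cc
  push_cast
  ring

lemma cc_pos (d : ℝ) (k j : ℕ) : 0 < cc d k j := by
  rw [cc_eq]; positivity

lemma cc_lt (d : ℝ) (hd : 0 < d) (k j : ℕ) (hj : j < 2 ^ (k - ee d k)) : cc d k j ≤ 2 * 2 ^ k := by
  rw [cc_eq]
  have h1 : (j + 1) * 2 ^ ee d k ≤ 2 ^ k := by
    calc (j + 1) * 2 ^ ee d k ≤ 2 ^ (k - ee d k) * 2 ^ ee d k := Nat.mul_le_mul_right _ hj
      _ = 2 ^ k := by rw [← pow_add, Nat.sub_add_cancel (ee_le d hd k)]
  have h2 : ((j : ℝ) + 1) * 2 ^ ee d k ≤ 2 ^ k := by exact_mod_cast h1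
  have h3 : (0 : ℝ) < 2 ^ ee d k := by positivity
  linarith

lemma lamk_pos {p : ℕ} (hp : 1 ≤ p) (d : ℝ) (k : ℕ) : 0 < lamk p d k := by
  unfold lamk
  have : (0 : ℝ) < p := by exact_mod_cast hp
  positivity

lemma uu_sep {p : ℕ} (hp : 1 ≤ p) (d : ℝ) (hd : 0 < d) (k j j' : ℕ) (hjj : j < j')
    (hj : j' < 2 ^ (k - ee d k)) : lamk p d k ≤ uu d k j' - uu d k j := by
  rw [uu_eq, uu_eq]
  have h1 : cc d k j + 2 ^ ee d k ≤ cc d k j' := by
    rw [cc_eq, cc_eq]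
    have h2 : (j : ℝ) + 1 ≤ j' := by exact_mod_cast hjj
    have h3 : (0 : ℝ) < 2 ^ ee d k := by positivity
    nlinarith
  have h3 : (0 : ℝ) < 2 ^ ee d k := by positivity
  have h4 := Helper30.QRH.log_gap (cc_pos d k j) (by linarith : cc d k j ≤ cc d k j')
  refine le_trans ?_ h4
  have h5 := cc_lt d hd k j' hj
  have h6 := cc_pos d k j'
  unfold lamk
  have hp' : (1 : ℝ) ≤ p := by exact_mod_cast hp
  have hX : (0 : ℝ) < 2 ^ k := by positivity
  rw [div_le_div_iff₀ (by positivity) h6]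
  have h7 : (2 : ℝ) * 2 ^ k ≤ 8 * p * 2 ^ k := by
    have : (2 : ℝ) ≤ 8 * p := by linarith
    exact mul_le_mul_of_nonneg_right this hX.le
  calc (2 : ℝ) ^ ee d k * cc d k j' ≤ 2 ^ ee d k * (8 * p * 2 ^ k) := by gcongr; linarith
    _ ≤ (cc d k j' - cc d k j) * (8 * p * 2 ^ k) := by
        apply mul_le_mul_of_nonneg_right _ (by positivity)
        linarith

lemma uu_abs {p : ℕ} (hp : 1 ≤ p) (d : ℝ) (hd : 0 < d) (k j j' : ℕ) (hne : j ≠ j')
    (hj : j < 2 ^ (k - ee d k)) (hj' : j' < 2 ^ (k - ee d k)) :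
    lamk p d k ≤ |uu d k j - uu d k j'| := by
  rcases lt_or_gt_of_ne hne with h | h
  · rw [abs_sub_comm]
    exact (uu_sep hp d hd k j j' h hj').trans (le_abs_self _)
  · exact (uu_sep hp d hd k j' j h hj).trans (le_abs_self _)

lemma lamk_le {p : ℕ} (hp : 1 ≤ p) (d : ℝ) (hd : 0 < d) (k : ℕ) : lamk p d k ≤ 1/2 := by
  unfold lamk
  have hp' : (1 : ℝ) ≤ p := by exact_mod_cast hp
  have hX : (0 : ℝ) < 2 ^ k := by positivity
  rw [div_le_iff₀ (by positivity)]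
  have h1 : (2 : ℝ) ^ ee d k ≤ 2 ^ k := pow_le_pow_right₀ (by norm_num) (ee_le d hd k)
  nlinarith

lemma inv_lamk {p : ℕ} (hp : 1 ≤ p) (d : ℝ) (k : ℕ) :
    1 / lamk p d k ≤ 16 * p * (2 : ℝ) ^ ((1/2 + d) * k) := by
  unfold lamk
  have hp' : (1 : ℝ) ≤ p := by exact_mod_cast hp
  rw [one_div_div]
  have h1 : (2 : ℝ) ^ ((k : ℝ) * (1/2 - d) - 1) ≤ (2 : ℝ) ^ ee d k := by
    rw [← Real.rpow_natCast (2 : ℝ) (ee d k)]
    exact Real.rpow_le_rpow_of_exponent_le (by norm_num) (ee_ge d k)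
  rw [div_le_iff₀ (by positivity)]
  have h2 : (2 : ℝ) ^ k = 2 * ((2 : ℝ) ^ ((1/2 + d) * k) * (2 : ℝ) ^ ((k : ℝ) * (1/2 - d) - 1)) := by
    rw [← Real.rpow_add (by norm_num), ← Real.rpow_natCast (2 : ℝ) k]
    nth_rewrite 2 [← Real.rpow_one (2 : ℝ)]
    rw [← Real.rpow_add (by norm_num)]
    congr 1
    ring
  calc 8 * p * (2 : ℝ) ^ k = 16 * p * (2 : ℝ) ^ ((1/2 + d) * k) *
        (2 : ℝ) ^ ((k : ℝ) * (1/2 - d) - 1) := by rw [h2]; ring
    _ ≤ _ := by gcongr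

lemma log_inv_lamk {p : ℕ} (hp : 1 ≤ p) (d : ℝ) (k : ℕ) (hk : 1 ≤ k) :
    Real.log (1 / lamk p d k) ≤ 9 * p * k := by
  have hp' : (1 : ℝ) ≤ p := by exact_mod_cast hp
  have hk' : (1 : ℝ) ≤ k := by exact_mod_cast hk
  have h1 : 1 / lamk p d k ≤ 8 * p * 2 ^ k := by
    unfold lamk
    rw [one_div_div]
    apply div_le_self (by positivity)
    exact one_le_pow₀ (by norm_num)
  have h2 : Real.log (1 / lamk p d k) ≤ Real.log (8 * p * 2 ^ k) :=
    Real.log_le_log (by have := lamk_pos hp d k; positivity) h1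
  refine h2.trans ?_
  rw [Real.log_mul (by positivity) (by positivity), Real.log_pow]
  have h3 : Real.log (8 * p) ≤ 8 * p := by
    have := Real.log_le_sub_one_of_pos (by positivity : (0 : ℝ) < 8 * p)
    linarith
  have h4 : Real.log 2 ≤ 1 := by linarith [Real.log_two_lt_d9]
  have h5 : (k : ℝ) * Real.log 2 ≤ p * k := by
    have h6 : (k : ℝ) * Real.log 2 ≤ k * 1 := by gcongr
    nlinarith
  nlinarith

lemma logT (k : ℕ) (hk : 1 ≤ k) : Real.log ((2 : ℝ) ^ (5 * k) + 2) ≤ 6 * k := by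
  have hk' : (1 : ℝ) ≤ k := by exact_mod_cast hk
  have h1 : (2 : ℝ) ^ (5 * k) + 2 ≤ 2 ^ (5 * k + 1) := by
    have : (2 : ℝ) ^ 1 ≤ 2 ^ (5 * k) := pow_le_pow_right₀ (by norm_num) (by omega)
    rw [pow_succ]
    linarith
  refine (Real.log_le_log (by positivity) h1).trans ?_
  rw [Real.log_pow]
  push_cast
  have h4 : Real.log 2 ≤ 1 := by linarith [Real.log_two_lt_d9]
  have : (5 * (k : ℝ) + 1) * Real.log 2 ≤ (5 * k + 1) * 1 := by gcongr
  linarith

lemma exp_uu (d : ℝ) (hd : 0 < d) (k j : ℕ) (hj : j < 2 ^ (k - ee d k)) :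
    Real.exp (0.605 * uu d k j) ≤ 2 * (2 : ℝ) ^ ((0.605 : ℝ) * k) := by
  rw [uu_eq, mul_comm, ← Real.rpow_def_of_pos (cc_pos d k j)]
  calc cc d k j ^ (0.605 : ℝ) ≤ (2 * 2 ^ k) ^ (0.605 : ℝ) :=
        Real.rpow_le_rpow (cc_pos d k j).le (cc_lt d hd k j hj) (by norm_num)
    _ = (2 : ℝ) ^ (0.605 : ℝ) * (2 : ℝ) ^ ((0.605 : ℝ) * k) := by
        rw [Real.mul_rpow (by norm_num) (by positivity), ← Real.rpow_natCast (2 : ℝ) k,
          ← Real.rpow_mul (by norm_num), mul_comm (k : ℝ)]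
    _ ≤ 2 * (2 : ℝ) ^ ((0.605 : ℝ) * k) := by
        gcongr
        calc (2 : ℝ) ^ (0.605 : ℝ) ≤ (2 : ℝ) ^ (1 : ℝ) :=
              Real.rpow_le_rpow_of_exponent_le (by norm_num) (by norm_num)
          _ = 2 := Real.rpow_one 2

end Pool.Agent.Helper8.KSZ.LF

namespace Pool.Agent.Helper8.KSZ

open Pool.Agent.Helper10.QRH Pool.Agent.Helper69.QRH Pool.Agent.Helper46.KSZ

theorem lineFew (hK : KFacts) (hG : GBound) (hD : Duality) : LineFew := by
  obtain ⟨CK0, hCK0⟩ := hK.bound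
  obtain ⟨CG, hCG0, hCG⟩ := hG
  obtain ⟨CD, hCD⟩ := hD
  set CK : ℝ := |CK0| + 1 with hCKd
  have hCK1 : 1 ≤ CK := by linarith [abs_nonneg CK0]
  intro p d hp hd hd1
  have hp' : (1 : ℝ) ≤ p := by exact_mod_cast hp
  set C' : ℝ := 200 * |CD| * (2 * (CK ^ p * (CG * 36))) * (9 * p) * (16 * p) with hC'
  obtain ⟨K, hKk⟩ := LF.exists_K C' d hd
  refine ⟨K + 1, ?_⟩
  intro k hk M Z hB
  have hk1 : 1 ≤ k := by omega
  have hk1' : (1 : ℝ) ≤ k := by exact_mod_cast hk1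
  set lam := lamk p d k with hlam
  have hl : 0 < lam := LF.lamk_pos hp d k
  have hl2 : lam ≤ 1/2 := LF.lamk_le hp d hd k
  set T : ℝ := 2 ^ (5 * k) with hTd
  have hT : 1 ≤ T := one_le_pow₀ (by norm_num)
  obtain ⟨hG1, -⟩ := hCG T M Z hT hB
  set L : ℝ := CG * (36 * (k : ℝ) ^ 2) with hLd
  have hL0 : 0 ≤ L := by positivity
  have hlogT : (Real.log (T + 2)) ^ 2 ≤ 36 * (k : ℝ) ^ 2 := by
    have h1 := LF.logT k hk1
    have h2 : 0 ≤ Real.log (T + 2) := Real.log_nonneg (by linarith)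
    calc (Real.log (T + 2)) ^ 2 ≤ (6 * (k : ℝ)) ^ 2 := by gcongr
      _ = _ := by ring
  set B : ℝ := 2 * (CK ^ p * L) with hBd
  have hB0 : 0 ≤ B := by positivity
  have hgb := LF.gg_bound hp (lam := lam) (T := T) (CK := CK) (L := L) (Z := Z) (by linarith) hL0
    (by
      intro s h0 h2
      refine (hCK0 lam hl (by linarith) s h0 h2).trans ?_
      apply div_le_div_of_nonneg_right _ (by positivity)
      linarith [le_abs_self CK0])
    (by
      intro s h0 h2 h3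
      refine (hG1 s h0 h2 h3).trans ?_
      rw [hLd]
      gcongr)
  set F := (Finset.range (2 ^ (k - ee d k))).filter (fun j =>
      1/100 * (2 : ℝ) ^ k ≤ ‖line p lam T Z (uu d k j)‖) with hF
  have hFj : ∀ j ∈ F, j < 2 ^ (k - ee d k) := by
    intro j hj
    exact Finset.mem_range.1 (Finset.mem_filter.1 hj).1
  have hinj : Set.InjOn (uu d k) F := by
    intro a ha b hb hab
    by_contra hne
    have := LF.uu_abs hp d hd k a b hne (hFj a ha) (hFj b hb)
    rw [hab, sub_self, abs_zero] at this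
    linarith
  have hdual := hCD lam hl hl2 (LF.gg p lam T Z) (LF.gg_meas hl hB.diff) B hB0 hgb
    (F.image (uu d k)) (by
      intro u hu u' hu' hne
      obtain ⟨a, ha, rfl⟩ := Finset.mem_image.1 hu
      obtain ⟨b, hb, rfl⟩ := Finset.mem_image.1 hu'
      exact LF.uu_abs hp d hd k a b (fun h => hne (by rw [h])) (hFj a ha) (hFj b hb))
  rw [Finset.sum_image hinj, Finset.card_image_of_injOn hinj] at hdual
  -- lower bound for each term
  set E : ℝ := (2 : ℝ) ^ ((0.605 : ℝ) * k) with hE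
  have hE0 : 0 < E := by positivity
  have hlow : ∀ j ∈ F, (2 : ℝ) ^ k / (200 * E) ≤
      ‖∫ t : ℝ, LF.gg p lam T Z t * Complex.exp (t * (uu d k j) * Complex.I)‖ := by
    intro j hj
    have h1 := (Finset.mem_filter.1 hj).2
    have h2 := LF.line_norm (p := p) (lam := lam) (T := T) (by linarith) Z (uu d k j)
    have h3 := LF.exp_uu d hd k j (hFj j hj)
    rw [div_le_iff₀ (by positivity)]
    have h4 : Real.exp (0.605 * uu d k j) *
        ‖∫ t : ℝ, LF.gg p lam T Z t * Complex.exp (t * (uu d k j) * Complex.I)‖ ≤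
        (2 * E) * ‖∫ t : ℝ, LF.gg p lam T Z t * Complex.exp (t * (uu d k j) * Complex.I)‖ := by
      gcongr
    linarith
  have hsum : (F.card : ℝ) * ((2 : ℝ) ^ k / (200 * E)) ≤
      CD * B * Real.log (1 / lam) / lam * Real.sqrt F.card := by
    refine le_trans ?_ hdual
    rw [← nsmul_eq_mul]
    exact Finset.card_nsmul_le_sum _ _ _ hlow
  -- final computation
  rcases Nat.eq_zero_or_pos F.card with h0 | hpos
  · rw [h0]
    simp only [Nat.cast_zero]
    positivity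
  have hFc : (0 : ℝ) < F.card := by exact_mod_cast hpos
  set S : ℝ := Real.sqrt F.card with hS
  have hS0 : 0 < S := Real.sqrt_pos.2 hFc
  have hSS : (F.card : ℝ) = S * S := (Real.mul_self_sqrt hFc.le).symm
  have hlog0 : 0 ≤ Real.log (1 / lam) := Real.log_nonneg (by rw [le_div_iff₀ hl]; linarith)
  have hS1 : S * ((2 : ℝ) ^ k / (200 * E)) ≤ CD * B * Real.log (1 / lam) / lam := by
    rw [hSS] at hsum
    have : S * (S * ((2 : ℝ) ^ k / (200 * E))) ≤ S * (CD * B * Real.log (1 / lam) / lam) := by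
      linarith
    exact le_of_mul_le_mul_left this hS0
  have h1 := LF.inv_lamk hp d k
  have h2 := LF.log_inv_lamk hp d k hk1
  have hS2 : CD * B * Real.log (1 / lam) / lam ≤
      |CD| * B * (9 * p * k) * (16 * p * (2 : ℝ) ^ ((1/2 + d) * k)) := by
    calc CD * B * Real.log (1 / lam) / lam = CD * (B * Real.log (1 / lam) * (1 / lam)) := by
          field_simp
      _ ≤ |CD| * (B * Real.log (1 / lam) * (1 / lam)) := by
          apply mul_le_mul_of_nonneg_right (le_abs_self _) (by positivity)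
      _ ≤ |CD| * (B * (9 * p * k) * (16 * p * (2 : ℝ) ^ ((1/2 + d) * k))) := by gcongr
      _ = _ := by ring
  have hXk : (2 : ℝ) ^ k = (2 : ℝ) ^ (k : ℝ) := (Real.rpow_natCast _ _).symm
  have hS3 : S ≤ C' * (k : ℝ) ^ 3 * (2 : ℝ) ^ ((0.105 + d) * k) := by
    have h3 : S * ((2 : ℝ) ^ k / (200 * E)) ≤
        |CD| * B * (9 * p * k) * (16 * p * (2 : ℝ) ^ ((1/2 + d) * k)) := hS1.trans hS2
    have h4 : (2 : ℝ) ^ ((1/2 + d) * k) * E = (2 : ℝ) ^ ((0.105 + d) * k) * (2 : ℝ) ^ k := by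
      rw [hE, hXk, ← Real.rpow_add (by norm_num), ← Real.rpow_add (by norm_num)]
      congr 1
      ring
    rw [← mul_div_assoc, div_le_iff₀ (by positivity)] at h3
    have h5 : |CD| * B * (9 * p * k) * (16 * p * (2 : ℝ) ^ ((1/2 + d) * k)) * (200 * E) =
        C' * (k : ℝ) ^ 3 * (2 : ℝ) ^ ((0.105 + d) * k) * (2 : ℝ) ^ k := by
      calc _ = 200 * |CD| * B * (9 * p * k) * (16 * p) * ((2 : ℝ) ^ ((1/2 + d) * k) * E) := by ring
        _ = 200 * |CD| * B * (9 * p * k) * (16 * p) *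
            ((2 : ℝ) ^ ((0.105 + d) * k) * (2 : ℝ) ^ k) := by rw [h4]
        _ = _ := by
          rw [hC', hBd, hLd]
          ring
    rw [h5] at h3
    exact le_of_mul_le_mul_right h3 (by positivity)
  have hS4 : S ≤ (2 : ℝ) ^ ((0.105 + 5/2 * d) * k) := by
    refine hS3.trans ?_
    have h6 := hKk k (by omega)
    calc C' * (k : ℝ) ^ 3 * (2 : ℝ) ^ ((0.105 + d) * k) ≤
        (2 : ℝ) ^ (3/2 * d * k) * (2 : ℝ) ^ ((0.105 + d) * k) := by gcongr
      _ = _ := by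
        rw [← Real.rpow_add (by norm_num)]
        congr 1
        ring
  rw [hSS]
  calc S * S ≤ (2 : ℝ) ^ ((0.105 + 5/2 * d) * k) * (2 : ℝ) ^ ((0.105 + 5/2 * d) * k) :=
        mul_le_mul hS4 hS4 hS0.le (by positivity)
    _ = (2 : ℝ) ^ ((0.21 + 5 * d) * k) := by
      rw [← Real.rpow_add (by norm_num)]
      congr 1
      ring

end Pool.Agent.Helper8.KSZ
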