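import Pool.Agent.Helper46.KSZ.St

/-! KSZ-E7: the shift to the line `Re s = 0.605`. -/

set_option autoImplicit false
open Filter Topology MeasureTheory

namespace Pool.Agent.Helper8.KSZ

open Pool.Agent.Helper10.QRH Pool.Agent.Helper69.QRH Pool.Agent.Helper46.KSZ

lemma tail_Ioi {f : ℝ → ℂ} {C T : ℝ} (hT : 0 < T)
    (hb : ∀ t, T < |t| → ‖f t‖ ≤ C / t ^ 2) :
    ‖∫ t in Set.Ioi T, f t‖ ≤ C / T := by
  have h1 : IntegrableOn (fun t : ℝ => C * t ^ (-2 : ℝ)) (Set.Ioi T) :=
    (integrableOn_Ioi_rpow_of_lt (by norm_num) hT).const_mul C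
  have h2 : ∫ t in Set.Ioi T, C * t ^ (-2 : ℝ) = C / T := by
    rw [integral_const_mul, integral_Ioi_rpow_of_lt (by norm_num) hT]
    have : (-2 : ℝ) + 1 = -1 := by norm_num
    rw [this, Real.rpow_neg_one]
    field_simp
  rw [← h2]
  refine norm_integral_le_of_norm_le h1 ?_
  refine (ae_restrict_mem measurableSet_Ioi).mono fun t ht => ?_
  have ht' : T < t := ht
  have h3 : 0 < t := hT.trans ht'
  have h4 := hb t (by rwa [abs_of_pos h3])
  rw [Real.rpow_neg h3.le, show (2 : ℝ) = ((2 : ℕ) : ℝ) by norm_num, Real.rpow_natCast,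
    ← div_eq_mul_inv]
  exact h4

lemma tail_Iic {f : ℝ → ℂ} {C T : ℝ} (hT : 0 < T)
    (hb : ∀ t, T < |t| → ‖f t‖ ≤ C / t ^ 2) :
    ‖∫ t in Set.Iic (-T), f t‖ ≤ C / T := by
  have h1 : ∫ t in Set.Iic (-T), f t = ∫ t in Set.Ioi T, f (-t) := by
    have := integral_comp_neg_Ioi T f
    rw [this]
  rw [h1]
  apply tail_Ioi hT
  intro t ht
  have := hb (-t) (by rwa [abs_neg])
  rwa [neg_sq] at this

lemma tail_bound {f : ℝ → ℂ} (hf : Integrable f) {C T : ℝ} (hT : 0 < T)
    (hb : ∀ t, T < |t| → ‖f t‖ ≤ C / t ^ 2) :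
    ‖(∫ t : ℝ, f t) - ∫ t in (-T)..T, f t‖ ≤ 2 * (C / T) := by
  have h1 : ∫ t : ℝ, f t = (∫ t in Set.Iic (-T), f t) + (∫ t in (-T)..T, f t) +
      ∫ t in Set.Ioi T, f t := by
    rw [intervalIntegral.integral_of_le (by linarith)]
    rw [← setIntegral_union (by
        rw [Set.disjoint_left]
        intro x hx hx'
        exact absurd hx'.1 (not_lt.2 hx)) measurableSet_Ioc hf.integrableOn hf.integrableOn,
      Set.Iic_union_Ioc_eq_Iic (by linarith), ← setIntegral_union (by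
        rw [Set.disjoint_left]
        intro x hx hx'
        exact absurd (show T < x from hx') (not_lt.2 hx)) measurableSet_Ioi hf.integrableOn hf.integrableOn,
      Set.Iic_union_Ioi, setIntegral_univ]
  rw [h1]
  have h2 : (∫ t in Set.Iic (-T), f t) + (∫ t in (-T)..T, f t) + (∫ t in Set.Ioi T, f t) -
      (∫ t in (-T)..T, f t) = (∫ t in Set.Iic (-T), f t) + ∫ t in Set.Ioi T, f t := by ring
  rw [h2]
  refine (norm_add_le _ _).trans ?_
  have h3 := tail_Iic hT hb
  have h4 := tail_Ioi hT hb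
  linarith

lemma line_re (c t : ℝ) : ((c : ℂ) + t * Complex.I).re = c := by simp
lemma line_im (c t : ℝ) : ((c : ℂ) + t * Complex.I).im = t := by simp

theorem shift (hK : KFacts) (hG : GBound) (h6 : LineTwo) : Shift := by
  obtain ⟨CK0, hCK0⟩ := hK.bound
  obtain ⟨CG, hCG0, hCG⟩ := hG
  set CK : ℝ := |CK0| + 1 with hCKd
  have hCK1 : 0 < CK := by positivity
  refine ⟨CK * CG + 1, by positivity, ?_⟩
  intro T M Z hT hB lam u hl hl1 hu
  obtain ⟨hG1, hG2⟩ := hCG T M Z hT hB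
  obtain ⟨hi, he⟩ := h6 T M Z hT hB lam u hl hl1 hu
  have hT0 : 0 < T := by linarith
  set L : ℝ := Real.log (T + 2) with hL
  have hL0 : 0 ≤ L := Real.log_nonneg (by linarith)
  set J : ℂ → ℂ := fun s => KK lam s * (-logDeriv Z s) * Complex.exp (s * u) with hJ
  have hZd : ∀ s : ℂ, 3/5 < s.re → |s.im| < T + 2 → DifferentiableAt ℂ (logDeriv Z) s := by
    intro s hs1 hs2
    have h1 : DifferentiableAt ℂ (deriv Z) s :=
      (hB.diff.deriv s)
    exact h1.div (hB.diff s) (hB.ne s hs1 hs2)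
  have hJd : ∀ s : ℂ, 3/5 < s.re → |s.im| < T + 2 → DifferentiableAt ℂ J s := by
    intro s hs1 hs2
    refine ((hK.diff lam hl s).mul (hZd s hs1 hs2).neg).mul ?_
    fun_prop
  -- bound
  set B : ℝ := CK * CG * Real.exp (2 * u) * L ^ 2 / lam ^ 2 with hBd
  have hB0 : 0 ≤ B := by positivity
  have hJb : ∀ s : ℂ, 0.605 ≤ s.re → s.re ≤ 2 → s.im ≠ 0 → ‖logDeriv Z s‖ ≤ CG * L ^ 2 →
      ‖J s‖ ≤ B / s.im ^ 2 := by
    intro s hs1 hs2 hs3 hs4
    have b1 := hCK0 lam hl hl1 s (by linarith) hs2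
    have hp : (0 : ℝ) < (lam * s.im) ^ 2 := by positivity
    have b1' : ‖KK lam s‖ ≤ CK / (lam * s.im) ^ 2 := by
      refine b1.trans ?_
      refine (div_le_div_of_nonneg_right ((le_abs_self CK0).trans (by linarith : |CK0| ≤ CK))
        (by positivity)).trans ?_
      exact div_le_div_of_nonneg_left hCK1.le hp (by linarith)
    have b3 : ‖Complex.exp (s * u)‖ ≤ Real.exp (2 * u) := by
      rw [Complex.norm_exp]
      apply Real.exp_le_exp.2
      simp only [Complex.mul_re, Complex.ofReal_re, Complex.ofReal_im, mul_zero, sub_zero]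
      nlinarith
    calc ‖J s‖ = ‖KK lam s‖ * ‖logDeriv Z s‖ * ‖Complex.exp (s * u)‖ := by
          simp only [hJ, norm_mul, norm_neg]
      _ ≤ (CK / (lam * s.im) ^ 2) * (CG * L ^ 2) * Real.exp (2 * u) := by gcongr
      _ = B / s.im ^ 2 := by
          rw [hBd]
          field_simp
  -- tail
  have htail := tail_bound hi hT0 (C := B) (by
    intro t ht
    have ht0 : t ≠ 0 := by
      rintro rfl
      rw [abs_zero] at ht
      linarith
    have := hJb ((2 : ℝ) + t * Complex.I) (by rw [line_re]; norm_num) (by rw [line_re])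
      (by rwa [line_im]) (by
        have := hG2 t
        push_cast
        exact this)
    rwa [line_im] at this)
  -- rectangle
  have hrect : (∫ x : ℝ in (0.605 : ℝ)..2, J (x + ((-T : ℝ) : ℂ) * Complex.I)) -
        (∫ x : ℝ in (0.605 : ℝ)..2, J (x + (T : ℂ) * Complex.I)) +
        Complex.I * (∫ y : ℝ in (-T)..T, J ((2 : ℝ) + y * Complex.I)) -
        Complex.I * (∫ y : ℝ in (-T)..T, J ((0.605 : ℝ) + y * Complex.I)) = 0 := by
    have := Complex.integral_boundary_rect_eq_zero_of_differentiableOn J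
        ((0.605 : ℝ) + ((-T : ℝ) : ℂ) * Complex.I) ((2 : ℝ) + (T : ℂ) * Complex.I) (by
      intro s hs
      rw [Complex.mem_reProdIm] at hs
      simp only [line_re, line_im] at hs
      obtain ⟨h2, h3⟩ := hs
      rw [Set.uIcc_of_le (by norm_num)] at h2
      rw [Set.uIcc_of_le (by linarith)] at h3
      apply (hJd s (by linarith [h2.1, show (3 / 5 : ℝ) < 0.605 by norm_num]) ?_).differentiableWithinAt
      rw [abs_lt]
      constructor <;> linarith [h3.1, h3.2])
    simpa only [line_re, line_im, smul_eq_mul] using this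
  have hhor : ∀ τ : ℝ, |τ| = T → ‖∫ x : ℝ in (0.605 : ℝ)..2, J (x + (τ : ℂ) * Complex.I)‖ ≤
      2 * (B / T) := by
    intro τ hτ
    have hτ0 : τ ≠ 0 := by
      rintro rfl
      rw [abs_zero] at hτ
      linarith
    have h1 := intervalIntegral.norm_integral_le_of_norm_le_const
      (a := (0.605 : ℝ)) (b := 2) (C := B / T ^ 2)
      (f := fun x : ℝ => J (x + (τ : ℂ) * Complex.I)) (by
        intro x hx
        rw [Set.uIoc_of_le (by norm_num)] at hx
        have := hJb (x + (τ : ℂ) * Complex.I) (by rw [line_re]; exact hx.1.le)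
          (by rw [line_re]; exact hx.2) (by rwa [line_im]) (hG1 _ (by rw [line_re]; exact hx.1.le)
          (by rw [line_re]; exact hx.2) (by rw [line_im, hτ]))
        rw [line_im, ← sq_abs, hτ] at this
        exact this)
    refine h1.trans ?_
    have h2 : |(2 : ℝ) - 0.605| ≤ 2 := by norm_num
    have h3 : B / T ^ 2 ≤ B / T := by
      apply div_le_div_of_nonneg_left hB0 hT0
      nlinarith
    calc B / T ^ 2 * |(2 : ℝ) - 0.605| ≤ (B / T) * 2 := by
          apply mul_le_mul h3 h2 (abs_nonneg _) (by positivity)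
      _ = 2 * (B / T) := by ring
  have h1 := hhor (-T) (by rw [abs_neg, abs_of_pos hT0])
  have h2 := hhor T (abs_of_pos hT0)
  -- difference of the vertical sides
  have hver : ‖(∫ y : ℝ in (-T)..T, J ((2 : ℝ) + y * Complex.I)) -
      (∫ y : ℝ in (-T)..T, J ((0.605 : ℝ) + y * Complex.I))‖ ≤ 4 * (B / T) := by
    have h3 : Complex.I * ((∫ y : ℝ in (-T)..T, J ((2 : ℝ) + y * Complex.I)) -
      (∫ y : ℝ in (-T)..T, J ((0.605 : ℝ) + y * Complex.I))) =
      (∫ x : ℝ in (0.605 : ℝ)..2, J (x + (T : ℂ) * Complex.I)) -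
      (∫ x : ℝ in (0.605 : ℝ)..2, J (x + ((-T : ℝ) : ℂ) * Complex.I)) := by
      linear_combination hrect
    have h4 : ‖Complex.I * ((∫ y : ℝ in (-T)..T, J ((2 : ℝ) + y * Complex.I)) -
      (∫ y : ℝ in (-T)..T, J ((0.605 : ℝ) + y * Complex.I)))‖ ≤ 4 * (B / T) := by
      rw [h3]
      refine (norm_sub_le _ _).trans ?_
      linarith
    rwa [norm_mul, Complex.norm_I, one_mul] at h4
  have hline : line 1 lam T Z u = (1 / (2 * Real.pi)) *
      ∫ y : ℝ in (-T)..T, J ((0.605 : ℝ) + y * Complex.I) := by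
    unfold line
    simp only [hJ, pow_one]
  rw [he, hline, ← mul_sub]
  have h5 : ‖(∫ t : ℝ, KK lam ((2 : ℝ) + t * Complex.I) *
      (-logDeriv Z ((2 : ℝ) + t * Complex.I)) * Complex.exp (((2 : ℝ) + t * Complex.I) * u)) -
      ∫ y : ℝ in (-T)..T, J ((0.605 : ℝ) + y * Complex.I)‖ ≤ 6 * (B / T) := by
    have h6 : (∫ t : ℝ, KK lam ((2 : ℝ) + t * Complex.I) *
      (-logDeriv Z ((2 : ℝ) + t * Complex.I)) * Complex.exp (((2 : ℝ) + t * Complex.I) * u)) -
      (∫ y : ℝ in (-T)..T, J ((0.605 : ℝ) + y * Complex.I)) =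
      ((∫ t : ℝ, KK lam ((2 : ℝ) + t * Complex.I) *
      (-logDeriv Z ((2 : ℝ) + t * Complex.I)) * Complex.exp (((2 : ℝ) + t * Complex.I) * u)) -
      ∫ y : ℝ in (-T)..T, J ((2 : ℝ) + y * Complex.I)) +
      ((∫ y : ℝ in (-T)..T, J ((2 : ℝ) + y * Complex.I)) -
      (∫ y : ℝ in (-T)..T, J ((0.605 : ℝ) + y * Complex.I))) := by ring
    rw [h6]
    refine (norm_add_le _ _).trans ?_
    linarith
  rw [norm_mul]
  have h7 : ‖(1 / (2 * Real.pi) : ℂ)‖ ≤ 1 / 6 := by
    rw [norm_div, norm_one, norm_mul, Complex.norm_real, Real.norm_of_nonneg Real.pi_pos.le]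
    simp only [Complex.norm_ofNat]
    apply div_le_div_of_nonneg_left (by norm_num) (by norm_num)
    linarith [Real.pi_gt_three]
  calc ‖(1 / (2 * Real.pi) : ℂ)‖ * _ ≤ 1 / 6 * (6 * (B / T)) := by
        apply mul_le_mul h7 h5 (norm_nonneg _) (by norm_num)
    _ = CK * CG * Real.exp (2 * u) * L ^ 2 / (lam ^ 2 * T) := by
        rw [hBd]
        field_simp
    _ ≤ (CK * CG + 1) * Real.exp (2 * u) * L ^ 2 / (lam ^ 2 * T) := by
        gcongr
        linarith

end Pool.Agent.Helper8.KSZ
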