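import Pool.Agent.Helper46.KSZ.St

/-! KSZ-E9: the explicit formula with the iterated kernel. -/

set_option autoImplicit false
open Filter Topology MeasureTheory

namespace Pool.Agent.Helper8.KSZ.Iter

open Pool.Agent.Helper10.QRH Pool.Agent.Helper69.QRH Pool.Agent.Helper46.KSZ
open Pool.Agent.Helper79.QRH (tri_cont tri_zero tri_nonneg tri_le KK_eq KK_cont
  integral_eq_interval)

lemma tri_int {lam : ℝ} (hl : 0 < lam) : ∫ w in (-lam)..lam, tri lam w = 1 := by
  have hc := tri_cont lam
  rw [← intervalIntegral.integral_add_adjacent_intervals (b := 0)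
    (hc.intervalIntegrable _ _) (hc.intervalIntegrable _ _)]
  have h1 : ∫ v in (-lam)..0, tri lam v = ∫ v in (-lam)..0, (1 + v / lam) / lam := by
    apply intervalIntegral.integral_congr
    intro v hv
    rw [Set.uIcc_of_le (by linarith)] at hv
    show tri lam v = _
    unfold tri
    rw [abs_of_nonpos hv.2, max_eq_right]
    · ring
    · have : -v / lam ≤ 1 := by
        rw [div_le_one hl]
        linarith [hv.1]
      linarith
  have h2 : ∫ v in (0:ℝ)..lam, tri lam v = ∫ v in (0:ℝ)..lam, (1 - v / lam) / lam := by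
    apply intervalIntegral.integral_congr
    intro v hv
    rw [Set.uIcc_of_le (by linarith)] at hv
    show tri lam v = _
    unfold tri
    rw [abs_of_nonneg hv.1, max_eq_right]
    have : v / lam ≤ 1 := by
      rw [div_le_one hl]
      linarith [hv.2]
    linarith
  rw [h1, h2]
  simp only [intervalIntegral.integral_div]
  rw [intervalIntegral.integral_add (by simp) (by
      apply Continuous.intervalIntegrable; fun_prop),
    intervalIntegral.integral_sub (by simp) (by
      apply Continuous.intervalIntegrable; fun_prop)]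
  simp only [intervalIntegral.integral_div, integral_id, intervalIntegral.integral_const,
    smul_eq_mul]
  field_simp
  ring

/-- the basic averaging identity -/
lemma avg_exp {lam : ℝ} (hl : 0 < lam) (z : ℂ) (u : ℝ) :
    ∫ w in (-lam)..lam, (tri lam w : ℂ) * Complex.exp (z * ((u - w : ℝ) : ℂ)) =
      KK lam z * Complex.exp (z * u) := by
  rw [KK_eq hl, ← intervalIntegral.integral_mul_const]
  apply intervalIntegral.integral_congr
  intro w _
  beta_reduce
  rw [mul_assoc, ← Complex.exp_add]
  congr 2
  push_cast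
  ring

lemma triC_cont (lam : ℝ) : Continuous (fun w : ℝ => (tri lam w : ℂ)) := by
  have := tri_cont lam
  fun_prop

/-- multiset sums -/
lemma msum_cont (M : Multiset ℂ) (g : ℂ → ℂ) :
    Continuous (fun u : ℝ => (M.map (fun ρ => Complex.exp (ρ * u) * g ρ)).sum) := by
  induction M using Multiset.induction_on with
  | empty => simp only [Multiset.map_zero, Multiset.sum_zero]; exact continuous_const
  | cons a M ih =>
    simp only [Multiset.map_cons, Multiset.sum_cons]
    exact (by fun_prop : Continuous (fun u : ℝ => Complex.exp (a * u) * g a)).add ih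

lemma avg_msum {lam : ℝ} (hl : 0 < lam) (M : Multiset ℂ) (g : ℂ → ℂ) (u : ℝ) :
    ∫ w in (-lam)..lam, (tri lam w : ℂ) *
      (M.map (fun ρ => Complex.exp (ρ * ((u - w : ℝ) : ℂ)) * g ρ)).sum =
      (M.map (fun ρ => Complex.exp (ρ * u) * (g ρ * KK lam ρ))).sum := by
  induction M using Multiset.induction_on with
  | empty => simp
  | cons a M ih =>
    simp only [Multiset.map_cons, Multiset.sum_cons, mul_add]
    rw [intervalIntegral.integral_add, ih]
    · congr 1
      have h1 : ∫ w in (-lam)..lam, (tri lam w : ℂ) * (Complex.exp (a * ((u - w : ℝ) : ℂ)) * g a) =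
          (∫ w in (-lam)..lam, (tri lam w : ℂ) * Complex.exp (a * ((u - w : ℝ) : ℂ))) * g a := by
        rw [← intervalIntegral.integral_mul_const]
        apply intervalIntegral.integral_congr
        intro w _
        show _ = _
        ring
      rw [h1, avg_exp hl]
      ring
    · apply Continuous.intervalIntegrable
      have := triC_cont lam
      fun_prop
    · apply Continuous.intervalIntegrable
      have := triC_cont lam
      have h2 := (msum_cont M g).comp (by fun_prop : Continuous (fun w : ℝ => u - w))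
      exact this.mul h2

/-- the prime side as a finite sum -/
lemma tsum_eq {K : ℝ → ℝ} {R : ℝ} (hK0 : ∀ v, R ≤ |v| → K v = 0) {N : ℕ} (hN : 1 ≤ N)
    {u : ℝ} (hu : u + R ≤ Real.log N) :
    ∑' n : ℕ, ArithmeticFunction.vonMangoldt n * K (u - Real.log n) =
      ∑ n ∈ Finset.range N, ArithmeticFunction.vonMangoldt n * K (u - Real.log n) := by
  apply tsum_eq_sum
  intro n hn
  rw [Finset.mem_range, not_lt] at hn
  have h1 : Real.log N ≤ Real.log n :=
    Real.log_le_log (by exact_mod_cast hN) (by exact_mod_cast hn)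
  rw [hK0, mul_zero]
  rw [abs_sub_comm]
  exact le_trans (by linarith) (le_abs_self _)

lemma fsum_cont {K : ℝ → ℝ} (hK : Continuous K) (N : ℕ) :
    Continuous (fun u : ℝ => ∑ n ∈ Finset.range N,
      ArithmeticFunction.vonMangoldt n * K (u - Real.log n)) := by
  fun_prop

lemma avg_fsum {lam : ℝ} (hl : 0 < lam) {K K' : ℝ → ℝ} (hK : Continuous K)
    (hK' : ∀ v, K' v = ∫ w : ℝ, tri lam w * K (v - w)) (N : ℕ) (u : ℝ) :
    ∫ w in (-lam)..lam, (tri lam w : ℂ) * ((∑ n ∈ Finset.range N,
      ArithmeticFunction.vonMangoldt n * K ((u - w) - Real.log n) : ℝ) : ℂ) =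
      ((∑ n ∈ Finset.range N,
      ArithmeticFunction.vonMangoldt n * K' (u - Real.log n) : ℝ) : ℂ) := by
  have hv : ∀ v, K' v = ∫ w in (-lam)..lam, tri lam w * K (v - w) := by
    intro v
    rw [hK', intervalIntegral.integral_of_le (by linarith)]
    symm
    apply setIntegral_eq_integral_of_forall_compl_eq_zero
    intro w hw
    rw [tri_zero hl, zero_mul]
    rw [Set.mem_Ioc, not_and_or, not_lt, not_le] at hw
    rcases hw with h | h
    · rw [le_abs]; right; linarith
    · rw [le_abs]; left; exact h.le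
  have ht := tri_cont lam
  have h1 : ∀ w : ℝ, (tri lam w : ℂ) * ((∑ n ∈ Finset.range N,
      ArithmeticFunction.vonMangoldt n * K ((u - w) - Real.log n) : ℝ) : ℂ) =
      ((∑ n ∈ Finset.range N, ArithmeticFunction.vonMangoldt n *
        (tri lam w * K ((u - Real.log n) - w)) : ℝ) : ℂ) := by
    intro w
    rw [← Complex.ofReal_mul, Finset.mul_sum]
    congr 1
    apply Finset.sum_congr rfl
    intro n _
    rw [show u - w - Real.log n = u - Real.log n - w by ring]
    ring
  simp only [h1]
  rw [intervalIntegral.integral_ofReal, intervalIntegral.integral_finsetSum]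
  · congr 1
    apply Finset.sum_congr rfl
    intro n _
    rw [intervalIntegral.integral_const_mul, hv]
  · intro n _
    apply Continuous.intervalIntegrable
    fun_prop

/-- the line integral of a continuous function -/
lemma lint_cont {G : ℝ → ℂ} (hG : Continuous G) (c T : ℝ) :
    Continuous (fun u : ℝ => ∫ t in (-T)..T, G t * Complex.exp (((c : ℂ) + t * Complex.I) * u)) := by
  apply intervalIntegral.continuous_parametric_intervalIntegral_of_continuous'
  simp only [Function.uncurry_def]
  fun_prop

lemma avg_lint {lam : ℝ} (hl : 0 < lam) {G : ℝ → ℂ} (hG : Continuous G) (c T : ℝ) (u : ℝ) :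
    ∫ w in (-lam)..lam, (tri lam w : ℂ) *
      (∫ t in (-T)..T, G t * Complex.exp (((c : ℂ) + t * Complex.I) * ((u - w : ℝ) : ℂ))) =
      ∫ t in (-T)..T, (G t * KK lam (c + t * Complex.I)) *
        Complex.exp (((c : ℂ) + t * Complex.I) * u) := by
  have h1 : ∀ w : ℝ, (tri lam w : ℂ) *
      (∫ t in (-T)..T, G t * Complex.exp (((c : ℂ) + t * Complex.I) * ((u - w : ℝ) : ℂ))) =
      ∫ t in (-T)..T, (tri lam w : ℂ) *
        (G t * Complex.exp (((c : ℂ) + t * Complex.I) * ((u - w : ℝ) : ℂ))) := by
    intro w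
    rw [intervalIntegral.integral_const_mul]
  simp only [h1]
  rw [intervalIntegral_intervalIntegral_swap]
  · apply intervalIntegral.integral_congr
    intro t _
    beta_reduce
    have h2 : ∫ w in (-lam)..lam, (tri lam w : ℂ) *
        (G t * Complex.exp (((c : ℂ) + t * Complex.I) * ((u - w : ℝ) : ℂ))) =
        G t * ∫ w in (-lam)..lam, (tri lam w : ℂ) *
          Complex.exp (((c : ℂ) + t * Complex.I) * ((u - w : ℝ) : ℂ)) := by
      rw [← intervalIntegral.integral_const_mul]
      apply intervalIntegral.integral_congr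
      intro w _
      show _ = _
      ring
    rw [h2, avg_exp hl]
    ring
  · have hc : Continuous (Function.uncurry fun (w t : ℝ) => (tri lam w : ℂ) *
        (G t * Complex.exp (((c : ℂ) + t * Complex.I) * ((u - w : ℝ) : ℂ)))) := by
      simp only [Function.uncurry_def]
      exact ((triC_cont lam).comp continuous_fst).mul (by fun_prop)
    have h3 : IntegrableOn (Function.uncurry fun (w t : ℝ) => (tri lam w : ℂ) *
        (G t * Complex.exp (((c : ℂ) + t * Complex.I) * ((u - w : ℝ) : ℂ))))
        (Set.uIcc (-lam) lam ×ˢ Set.uIcc (-T) T) :=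
      hc.continuousOn.integrableOn_compact (isCompact_uIcc.prod isCompact_uIcc)
    exact h3.mono_set (Set.prod_mono Set.uIoc_subset_uIcc Set.uIoc_subset_uIcc)

/-- a continuous function on `[-T, T]` extends -/
lemma exists_ext {T : ℝ} (hT : 0 ≤ T) {G : ℝ → ℂ} (hG : ContinuousOn G (Set.Icc (-T) T)) :
    ∃ G' : ℝ → ℂ, Continuous G' ∧ ∀ t ∈ Set.Icc (-T) T, G' t = G t := by
  have h : -T ≤ T := by linarith
  refine ⟨Set.IccExtend h ((Set.Icc (-T) T).domRestrict G), ?_, ?_⟩
  · exact (continuousOn_iff_continuous_domRestrict.1 hG).Icc_extend'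
  · intro t ht
    rw [Set.IccExtend_of_mem _ _ ht]
    rfl

theorem step (hK : KFacts) (h8 : KerFacts) {C T : ℝ} (hT : 1 ≤ T) (hC : 0 < C) {M : Multiset ℂ}
    {Z : ℂ → ℂ} (hB : Box T M Z) {lam : ℝ} (hl : 0 < lam) {j : ℕ}
    (ih : ∀ u : ℝ, 1 + j * lam ≤ u → ‖lhs (ker lam j) (j + 1) lam M u - line (j + 1) lam T Z u‖ ≤
      C * Real.exp (2 * (u + j * lam)) * (Real.log (T + 2)) ^ 2 / (lam ^ 2 * T))
    {u : ℝ} (hu : 1 + ((j + 1 : ℕ) : ℝ) * lam ≤ u) :
    ‖lhs (ker lam (j + 1)) (j + 1 + 1) lam M u - line (j + 1 + 1) lam T Z u‖ ≤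
      C * Real.exp (2 * (u + ((j + 1 : ℕ) : ℝ) * lam)) * (Real.log (T + 2)) ^ 2 /
        (lam ^ 2 * T) := by
  obtain ⟨hkc, -, -, hkz⟩ := h8 lam hl j
  obtain ⟨-, -, -, hkz'⟩ := h8 lam hl (j + 1)
  have hT0 : 0 < T := by linarith
  -- finite sums
  set N : ℕ := ⌈Real.exp (u + ((j : ℝ) + 2) * lam)⌉₊ with hN
  have hN1 : 1 ≤ N := Nat.one_le_iff_ne_zero.2 (Nat.ceil_pos.2 (Real.exp_pos _)).ne'
  have hNl : u + ((j : ℝ) + 2) * lam ≤ Real.log N := by
    rw [Real.le_log_iff_exp_le (by exact_mod_cast hN1)]
    exact Nat.le_ceil _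
  have hs1 : ∀ w : ℝ, |w| ≤ lam → (∑' n : ℕ, ArithmeticFunction.vonMangoldt n *
      ker lam j ((u - w) - Real.log n)) = ∑ n ∈ Finset.range N,
      ArithmeticFunction.vonMangoldt n * ker lam j ((u - w) - Real.log n) := by
    intro w hw
    apply tsum_eq (R := ((j : ℝ) + 1) * lam) hkz hN1
    have := (abs_le.1 hw).1
    linarith
  have hs2 : (∑' n : ℕ, ArithmeticFunction.vonMangoldt n *
      ker lam (j + 1) (u - Real.log n)) = ∑ n ∈ Finset.range N,
      ArithmeticFunction.vonMangoldt n * ker lam (j + 1) (u - Real.log n) := by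
    apply tsum_eq (R := (((j + 1 : ℕ) : ℝ) + 1) * lam) hkz' hN1
    push_cast
    linarith
  -- the line
  have hGc : ContinuousOn (fun t : ℝ => KK lam ((0.605 : ℝ) + t * Complex.I) ^ (j + 1) *
      (-logDeriv Z ((0.605 : ℝ) + t * Complex.I))) (Set.Icc (-T) T) := by
    have h1 : Continuous (fun t : ℝ => KK lam ((0.605 : ℝ) + t * Complex.I)) :=
      (KK_cont hl).comp (by fun_prop)
    refine (h1.pow _).continuousOn.mul (ContinuousOn.neg ?_)
    intro t ht
    apply ContinuousAt.continuousWithinAt
    have hne : Z ((0.605 : ℝ) + t * Complex.I) ≠ 0 := by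
      apply hB.ne
      · simp only [Complex.add_re, Complex.ofReal_re, Complex.mul_re, Complex.I_re, mul_zero,
          Complex.ofReal_im, Complex.I_im, mul_one, sub_self, add_zero]
        norm_num
      · simp only [Complex.add_im, Complex.ofReal_im, Complex.mul_im, Complex.ofReal_re,
          Complex.I_im, mul_one, Complex.I_re, mul_zero, add_zero, zero_add]
        rw [abs_lt]
        constructor <;> linarith [ht.1, ht.2]
    have h2 : ContinuousAt (logDeriv Z) ((0.605 : ℝ) + t * Complex.I) := by
      have h3 : DifferentiableAt ℂ (deriv Z) ((0.605 : ℝ) + t * Complex.I) := hB.diff.deriv _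
      exact (h3.div (hB.diff _) hne).continuousAt
    exact ContinuousAt.comp (f := fun t : ℝ => ((0.605 : ℝ) : ℂ) + t * Complex.I) h2
      (by fun_prop)
  obtain ⟨G, hG, hGe⟩ := exists_ext hT0.le hGc
  have hline : ∀ v : ℝ, line (j + 1) lam T Z v = (1 / (2 * Real.pi)) * ∫ t in (-T)..T, G t *
      Complex.exp ((((0.605 : ℝ) : ℂ) + t * Complex.I) * v) := by
    intro v
    unfold line
    congr 1
    apply intervalIntegral.integral_congr
    intro t ht
    rw [Set.uIcc_of_le (by linarith)] at ht
    beta_reduce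
    rw [hGe t ht]
  have hline' : ∀ v : ℝ, line (j + 1 + 1) lam T Z v = (1 / (2 * Real.pi)) * ∫ t in (-T)..T,
      (G t * KK lam ((0.605 : ℝ) + t * Complex.I)) *
      Complex.exp ((((0.605 : ℝ) : ℂ) + t * Complex.I) * v) := by
    intro v
    unfold line
    congr 1
    apply intervalIntegral.integral_congr
    intro t ht
    rw [Set.uIcc_of_le (by linarith)] at ht
    beta_reduce
    rw [hGe t ht]
    ring
  -- the four pieces
  have htc := triC_cont lam
  have i1 := avg_fsum (K' := ker lam (j + 1)) hl hkc (fun v => rfl) N u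
  have i2 := avg_exp hl 1 u
  have i3 := avg_msum hl M (fun ρ => KK lam ρ ^ (j + 1)) u
  have i4 := avg_lint hl hG (0.605 : ℝ) T u
  have c1 : Continuous (fun w : ℝ => (tri lam w : ℂ) * ((∑ n ∈ Finset.range N,
      ArithmeticFunction.vonMangoldt n * ker lam j ((u - w) - Real.log n) : ℝ) : ℂ)) := by
    have h1 := (fsum_cont hkc N).comp (by fun_prop : Continuous (fun w : ℝ => u - w))
    exact htc.mul (Complex.continuous_ofReal.comp h1)
  have c2 : Continuous (fun w : ℝ => (tri lam w : ℂ) * Complex.exp (1 * ((u - w : ℝ) : ℂ))) := by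
    fun_prop
  have c3 : Continuous (fun w : ℝ => (tri lam w : ℂ) * (M.map (fun ρ =>
      Complex.exp (ρ * ((u - w : ℝ) : ℂ)) * KK lam ρ ^ (j + 1))).sum) := by
    have h1 := (msum_cont M (fun ρ => KK lam ρ ^ (j + 1))).comp
      (by fun_prop : Continuous (fun w : ℝ => u - w))
    exact htc.mul h1
  have c4 : Continuous (fun w : ℝ => (tri lam w : ℂ) * (∫ t in (-T)..T, G t *
      Complex.exp ((((0.605 : ℝ) : ℂ) + t * Complex.I) * ((u - w : ℝ) : ℂ)))) := by
    have h1 := (lint_cont hG (0.605 : ℝ) T).comp (by fun_prop : Continuous (fun w : ℝ => u - w))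
    exact htc.mul h1
  have key : lhs (ker lam (j + 1)) (j + 1 + 1) lam M u - line (j + 1 + 1) lam T Z u =
      ∫ w in (-lam)..lam, (tri lam w : ℂ) *
        (lhs (ker lam j) (j + 1) lam M (u - w) - line (j + 1) lam T Z (u - w)) := by
    have e1 : ∫ w in (-lam)..lam, (tri lam w : ℂ) *
        (lhs (ker lam j) (j + 1) lam M (u - w) - line (j + 1) lam T Z (u - w)) =
        ∫ w in (-lam)..lam, ((((tri lam w : ℂ) * ((∑ n ∈ Finset.range N,
      ArithmeticFunction.vonMangoldt n * ker lam j ((u - w) - Real.log n) : ℝ) : ℂ)) -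
        ((tri lam w : ℂ) * Complex.exp (1 * ((u - w : ℝ) : ℂ))) * KK lam 1 ^ (j + 1)) +
        (tri lam w : ℂ) * (M.map (fun ρ =>
      Complex.exp (ρ * ((u - w : ℝ) : ℂ)) * KK lam ρ ^ (j + 1))).sum) -
        (1 / (2 * Real.pi)) * ((tri lam w : ℂ) * (∫ t in (-T)..T, G t *
      Complex.exp ((((0.605 : ℝ) : ℂ) + t * Complex.I) * ((u - w : ℝ) : ℂ)))) := by
      apply intervalIntegral.integral_congr
      intro w hw
      rw [Set.uIcc_of_le (by linarith)] at hw
      beta_reduce
      rw [hline]
      unfold lhs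
      rw [hs1 w (abs_le.2 hw), one_mul]
      ring
    rw [e1, intervalIntegral.integral_sub, intervalIntegral.integral_add,
      intervalIntegral.integral_sub, intervalIntegral.integral_mul_const,
      intervalIntegral.integral_const_mul, i1, i2, i3, i4, hline']
    · unfold lhs
      rw [hs2]
      simp only [one_mul, ← pow_succ]
      ring
    · exact c1.intervalIntegrable _ _
    · exact (c2.mul continuous_const).intervalIntegrable _ _
    · exact (c1.sub (c2.mul continuous_const)).intervalIntegrable _ _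
    · exact c3.intervalIntegrable _ _
    · exact ((c1.sub (c2.mul continuous_const)).add c3).intervalIntegrable _ _
    · exact (continuous_const.mul c4).intervalIntegrable _ _
  rw [key]
  set B : ℝ := C * Real.exp (2 * (u + ((j + 1 : ℕ) : ℝ) * lam)) * (Real.log (T + 2)) ^ 2 /
        (lam ^ 2 * T) with hBd
  have hb : ‖∫ w in (-lam)..lam, (tri lam w : ℂ) *
        (lhs (ker lam j) (j + 1) lam M (u - w) - line (j + 1) lam T Z (u - w))‖ ≤
      ∫ w in (-lam)..lam, tri lam w * B := by
    apply intervalIntegral.norm_integral_le_of_norm_le (by linarith)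
    · refine Filter.Eventually.of_forall ?_
      intro w hw
      have hw' : |w| ≤ lam := abs_le.2 ⟨hw.1.le, hw.2⟩
      rw [norm_mul, Complex.norm_real, Real.norm_of_nonneg (tri_nonneg hl)]
      apply mul_le_mul_of_nonneg_left _ (tri_nonneg hl)
      push_cast at hu
      refine (ih (u - w) ?_).trans ?_
      · linarith [hw.2]
      · have hexp : Real.exp (2 * (u - w + j * lam)) ≤
            Real.exp (2 * (u + ((j + 1 : ℕ) : ℝ) * lam)) := by
          apply Real.exp_le_exp.2
          push_cast
          linarith [hw.1]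
        rw [hBd]
        gcongr
    · have := tri_cont lam
      apply Continuous.intervalIntegrable
      fun_prop
  rw [intervalIntegral.integral_mul_const, tri_int hl, one_mul] at hb
  exact hb

end Pool.Agent.Helper8.KSZ.Iter

namespace Pool.Agent.Helper8.KSZ

open Pool.Agent.Helper10.QRH Pool.Agent.Helper69.QRH Pool.Agent.Helper46.KSZ

theorem shiftIter (hK : KFacts) (h7 : Shift) (h8 : KerFacts) : ShiftIter := by
  obtain ⟨C, hC, hCs⟩ := h7
  refine ⟨C, hC, ?_⟩
  intro T M Z hT hB lam u j hl hl1
  induction j generalizing u with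
  | zero =>
    intro hu
    have := hCs T M Z hT hB lam u hl hl1 (by simpa using hu)
    simpa [Helper46.KSZ.ker] using this
  | succ j ih =>
    intro hu
    exact Iter.step hK h8 hT hC hB hl (fun v hv => ih v hv) hu

end Pool.Agent.Helper8.KSZ
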